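import Pool.Agent.helper3.T5.SpecA

set_option autoImplicit false

/-!
# T5, module ACLP: primes dividing `d` and `Z Λ`
-/

namespace Pool.Agent.T5

open Finset NumberField Pool.Agent.helper3.FT Pool.Agent.helper47.RA

variable {K : Type} [Field K] [NumberField K]

/-- dividing by an integer: the norm -/
lemma ACLP_div (Q : QF K) (x y : 𝓞 K) (N N' : ℤ) (p : ℕ) (hp : p.Prime)
    (hN : x * Q.cj x = N) (hx : x = (p : 𝓞 K) * y) (h : N = (p : ℤ) ^ 2 * N') :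
    y * Q.cj y = N' := by
  have hp0 : ((p : 𝓞 K)) ≠ 0 := by exact_mod_cast hp.ne_zero
  have h1 : (p : 𝓞 K) ^ 2 * (y * Q.cj y) = (p : 𝓞 K) ^ 2 * N' := by
    have e1 : Q.cj x = p * Q.cj y := by rw [hx, map_mul, map_natCast]
    have e2 : x * Q.cj x = (p : 𝓞 K) ^ 2 * (y * Q.cj y) := by rw [e1, hx]; ring
    rw [← e2, hN, h]
    push_cast
    ring
  exact mul_left_cancel₀ (pow_ne_zero 2 hp0) h1

lemma ACLP_Y (Q : QF K) (x y : 𝓞 K) (p : ℕ) (hx : x = (p : 𝓞 K) * y) : Q.Y x = p * Q.Y y := by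
  have h := Q.Y_int_mul (p : ℤ) y
  rw [hx]
  exact_mod_cast h

theorem ACLP_one (hARAM : ARAM_stmt) (hAPRM : APRM_stmt) (hASQF : ASQF_stmt) (Q : QF K)
    (a : Ideal (𝓞 K)) (α γ : 𝓞 K) (d : ℕ) (t : Tpl) (hd : Dat Q a α γ d t) (p : ℕ) (hp : p.Prime)
    (hpd : p ∣ d) (hZΛ : (p : ℤ) ∣ t.2.2.2 ∨ (p : ℤ) ∣ lam t) :
    ¬ p ^ 2 ∣ d ∧ (p : ℤ) ∣ t.2.1 ∧ (p : ℤ) ∣ t.2.2.1 := by
  obtain ⟨F, hFa, hFβ, hFγ, hFZ, hFΛ, hFu, hFv, -, -⟩ := hd.full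
  have hpZ := Nat.prime_iff_prime_int.mp hp
  have hpdZ : (p : ℤ) ∣ (d : ℤ) := by exact_mod_cast hpd
  have hYβ : (p : ℤ) ∣ Q.Y F.β := by
    rw [hFβ, hd.n]; exact hpdZ.mul_right _
  have hYγ : (p : ℤ) ∣ Q.Y F.γ := by
    rw [hFγ, hd.k]; exact hpdZ.mul_right _
  have hZΛ' : (p : ℤ) ∣ F.Z ∨ (p : ℤ) ∣ F.Λ := by rw [hFZ, hFΛ]; exact hZΛ
  have hNβ : (p : ℤ) ∣ F.Z ^ 2 * F.Λ := by
    rcases hZΛ' with h | h
    · exact (dvd_pow h two_ne_zero).mul_right _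
    · exact h.mul_left _
  have hNγ : (p : ℤ) ∣ F.Z * F.Λ ^ 2 := by
    rcases hZΛ' with h | h
    · exact h.mul_right _
    · exact (dvd_pow h two_ne_zero).mul_left _
  have hβ := Q.dvd_of_dvd p hp F.β (F.Z ^ 2 * F.Λ) (by rw [F.nβ]; push_cast; ring) hYβ hNβ
  have hγ := Q.dvd_of_dvd p hp F.γ (F.Z * F.Λ ^ 2) (by rw [F.nγ]; push_cast; ring) hYγ hNγ
  obtain ⟨P, hPp, hPP, -, hPa, hPL⟩ := F.ramified p hp hβ hγ
  have hnP : Ideal.absNorm P = p := by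
    have h1 : Ideal.absNorm P ^ 2 = p ^ 2 := by
      rw [sq, ← map_mul, hPP, h96_norm_q Q p]
    exact Nat.pow_left_injective two_ne_zero h1
  have hpD : (p : ℤ) ∣ Q.D := by
    by_contra hD
    have h1 := (hASQF K Q p 2 hp hD (by norm_num)).2 P (by rw [sq, hPP])
    have h2 := map_dvd Ideal.absNorm h1
    rw [h96_norm_q Q p, hnP] at h2
    have h3 := Nat.le_of_dvd hp.pos h2
    have := hp.two_le
    nlinarith
  have hna : p ∣ Ideal.absNorm F.a := by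
    have := map_dvd Ideal.absNorm hPa
    rwa [hnP] at this
  have hnL : p ∣ Ideal.absNorm F.L := by
    have := map_dvd Ideal.absNorm hPL
    rwa [hnP] at this
  have ha0 : F.a ≠ ⊥ := by
    intro h
    have := F.na
    rw [h, Ideal.absNorm_bot] at this
    exact F.hZ (abs_eq_zero.1 (by exact_mod_cast this.symm))
  have hL0 : F.L ≠ ⊥ := by
    intro h
    have := F.nL
    rw [h, Ideal.absNorm_bot] at this
    exact F.hΛ (abs_eq_zero.1 (by exact_mod_cast this.symm))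
  have ha2 := hAPRM K Q F.a p hp hpD ha0 F.pa
  have hL2 := hAPRM K Q F.L p hp hpD hL0 F.pL
  have hz1 : (p : ℤ) ∣ F.Z := by
    rw [← dvd_abs, ← F.na]; exact_mod_cast hna
  have hz2 : ¬ (p : ℤ) ^ 2 ∣ F.Z := by
    rw [← dvd_abs, ← F.na]; exact_mod_cast ha2
  have hl1 : (p : ℤ) ∣ F.Λ := by
    rw [← dvd_abs, ← F.nL]; exact_mod_cast hnL
  have hl2 : ¬ (p : ℤ) ^ 2 ∣ F.Λ := by
    rw [← dvd_abs, ← F.nL]; exact_mod_cast hL2
  obtain ⟨z, hz⟩ := hz1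
  obtain ⟨l, hl⟩ := hl1
  have hpz : ¬ (p : ℤ) ∣ z := by
    rintro ⟨z', hz'⟩
    exact hz2 ⟨z', by rw [hz, hz']; ring⟩
  have hpl : ¬ (p : ℤ) ∣ l := by
    rintro ⟨l', hl'⟩
    exact hl2 ⟨l', by rw [hl, hl']; ring⟩
  -- `β = p β₁`
  obtain ⟨β₁, hβ₁⟩ := hβ
  have hnβ₁ : β₁ * Q.cj β₁ = ((p * (z ^ 2 * l) : ℤ) : 𝓞 K) :=
    ACLP_div Q F.β β₁ (F.Z ^ 2 * F.Λ) (p * (z ^ 2 * l)) p hp (by rw [F.nβ]; push_cast; ring) hβ₁
      (by rw [hz, hl]; ring)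
  have hYβ₁ : ¬ (p : ℤ) ∣ Q.Y β₁ := by
    intro h
    have h1 := Q.dvd_of_dvd p hp β₁ _ hnβ₁ h (dvd_mul_right _ _)
    obtain ⟨β₂, hβ₂⟩ := h1
    obtain ⟨N₂, hN₂, -⟩ := Q.exists_norm β₂
    have h2 : ((p * (z ^ 2 * l) : ℤ) : 𝓞 K) = (((p : ℤ) ^ 2 * N₂ : ℤ) : 𝓞 K) := by
      rw [← hnβ₁, hβ₂, map_mul, map_natCast]
      push_cast
      rw [← hN₂]
      ring
    have h3 : (p : ℤ) * (z ^ 2 * l) = (p : ℤ) ^ 2 * N₂ := by exact_mod_cast h2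
    have h4 : z ^ 2 * l = p * N₂ := by
      have hp0 : (p : ℤ) ≠ 0 := by exact_mod_cast hp.ne_zero
      apply mul_left_cancel₀ hp0
      rw [h3]; ring
    have h5 : (p : ℤ) ∣ z ^ 2 * l := ⟨N₂, h4⟩
    rcases hpZ.dvd_or_dvd h5 with h6 | h6
    · exact hpz (hpZ.dvd_of_dvd_pow h6)
    · exact hpl h6
  have hYb : Q.Y F.β = p * Q.Y β₁ := ACLP_Y Q F.β β₁ p hβ₁
  have hd2 : ¬ p ^ 2 ∣ d := by
    intro h
    have h1 : (p : ℤ) ^ 2 ∣ Q.Y F.β := by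
      rw [hFβ, hd.n]
      exact Dvd.dvd.mul_right (by exact_mod_cast h) _
    rw [hYb, sq] at h1
    exact hYβ₁ (Int.dvd_of_mul_dvd_mul_left (by exact_mod_cast hp.ne_zero) h1)
  obtain ⟨d', hd'⟩ := hpd
  have hpd' : ¬ (p : ℤ) ∣ (d' : ℤ) := by
    intro h
    have h1 : p ∣ d' := by exact_mod_cast h
    obtain ⟨d'', hd''⟩ := h1
    exact hd2 ⟨d'', by rw [hd', hd'']; ring⟩
  -- elements whose norm is divisible by `p ^ 4`
  have key : ∀ (x : 𝓞 K) (c : ℤ) (m : ℤ), x * Q.cj x = (((p : ℤ) ^ 4 * c : ℤ) : 𝓞 K) →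
      Q.Y x = d * m → (p : ℤ) ∣ m := by
    intro x c m hx hY
    have h1 : (p : 𝓞 K) ∣ x := hARAM K Q x _ p hp hpD hx ⟨(p : ℤ) ^ 2 * c, by ring⟩
    obtain ⟨x₁, hx₁⟩ := h1
    have h2 := ACLP_div Q x x₁ _ ((p : ℤ) ^ 2 * c) p hp hx hx₁ (by ring)
    have h3 : (p : 𝓞 K) ∣ x₁ := hARAM K Q x₁ _ p hp hpD h2 ⟨c, by ring⟩
    obtain ⟨x₂, hx₂⟩ := h3
    have h4 : Q.Y x = p * (p * Q.Y x₂) := by
      rw [ACLP_Y Q x x₁ p hx₁, ACLP_Y Q x₁ x₂ p hx₂]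
    have h5 : (p : ℤ) * (d' * m) = p * (p * Q.Y x₂) := by
      rw [← h4, hY, hd']
      push_cast
      ring
    have hp0 : (p : ℤ) ≠ 0 := by exact_mod_cast hp.ne_zero
    have h6 : (d' : ℤ) * m = p * Q.Y x₂ := mul_left_cancel₀ hp0 h5
    have h7 : (p : ℤ) ∣ (d' : ℤ) * m := ⟨_, h6⟩
    rcases hpZ.dvd_or_dvd h7 with h8 | h8
    · exact absurd h8 hpd'
    · exact h8
  refine ⟨hd2, ?_, ?_⟩
  · exact key F.u (z ^ 3 * l) t.2.1 (by rw [F.nu, hz, hl]; push_cast; ring) hFu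
  · exact key F.v (z * l ^ 3) t.2.2.1 (by rw [F.nv, hz, hl]; push_cast; ring) hFv

theorem ACLP (hARAM : ARAM_stmt) (hAPRM : APRM_stmt) (hASQF : ASQF_stmt) : ACLP_stmt := by
  classical
  intro K _ _ Q a α γ d t hd
  have h1 := ACLP_one hARAM hAPRM hASQF Q a α γ d t hd
  refine ⟨h1, ?_⟩
  have hd0 : d ≠ 0 := by have := hd.d1; omega
  set S := d.primeFactors.filter (fun p : ℕ => (p : ℤ) ∣ t.2.2.2 ∨ (p : ℤ) ∣ lam t) with hS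
  have hmem : ∀ p ∈ S, p.Prime ∧ p ∣ d ∧ ((p : ℤ) ∣ t.2.2.2 ∨ (p : ℤ) ∣ lam t) := by
    intro p hp
    rw [hS, mem_filter] at hp
    exact ⟨Nat.prime_of_mem_primeFactors hp.1, Nat.dvd_of_mem_primeFactors hp.1, hp.2⟩
  refine ⟨∏ p ∈ S, p, ?_, ?_, ?_, ?_, ?_⟩
  · exact (Finset.prod_dvd_prod_of_subset _ _ _ (Finset.filter_subset _ _)).trans
      (Nat.prod_primeFactors_dvd d)
  · have hdd : ∏ p ∈ S, p ∣ d := (Finset.prod_dvd_prod_of_subset _ _ _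
      (Finset.filter_subset _ _)).trans (Nat.prod_primeFactors_dvd d)
    rw [Nat.coprime_iff_gcd_eq_one]
    by_contra hc
    obtain ⟨q, hq, hq1, hq2⟩ := Nat.Prime.not_coprime_iff_dvd.1 hc
    obtain ⟨r, hr, hqr⟩ := (hq.prime.dvd_finsetProd_iff _).1 hq1
    have hqr' : q = r := (Nat.prime_dvd_prime_iff_eq hq (hmem r hr).1).1 hqr
    subst hqr'
    obtain ⟨h2, h3, h4⟩ := hmem q hr
    refine (h1 q h2 h3 h4).1 ?_
    rw [sq, ← Nat.mul_div_cancel' hdd]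
    exact Nat.mul_dvd_mul hq1 hq2
  · rw [Int.natCast_dvd]
    refine Finset.prod_primes_dvd _ (fun p hp => (hmem p hp).1.prime) (fun p hp => ?_)
    obtain ⟨h2, h3, h4⟩ := hmem p hp
    exact Int.natCast_dvd.1 (h1 p h2 h3 h4).2.1
  · rw [Int.natCast_dvd]
    refine Finset.prod_primes_dvd _ (fun p hp => (hmem p hp).1.prime) (fun p hp => ?_)
    obtain ⟨h2, h3, h4⟩ := hmem p hp
    exact Int.natCast_dvd.1 (h1 p h2 h3 h4).2.2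
  · intro q hq hqd
    have hdd : ∏ p ∈ S, p ∣ d := (Finset.prod_dvd_prod_of_subset _ _ _
      (Finset.filter_subset _ _)).trans (Nat.prod_primeFactors_dvd d)
    rw [← not_or]
    intro hor
    have hqd' : q ∣ d := hqd.trans (Nat.div_dvd_of_dvd hdd)
    have hqS : q ∈ S := by
      rw [hS, mem_filter]
      exact ⟨Nat.mem_primeFactors.2 ⟨hq, hqd', hd0⟩, hor⟩
    have h2 : q ∣ ∏ p ∈ S, p := Finset.dvd_prod_of_mem _ hqS
    refine (h1 q hq hqd' hor).1 ?_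
    rw [sq, ← Nat.mul_div_cancel' hdd]
    exact Nat.mul_dvd_mul h2 hqd

end Pool.Agent.T5
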