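import Pool.Agent.helper3.T5.SpecA

set_option autoImplicit false

/-! # Row t5:ASUR (MP_16912e_nt) -/

namespace Pool.Agent.T5

open Finset NumberField Pool.Agent.helper3.FT Pool.Agent.helper47.RA

variable {K : Type} [Field K] [NumberField K]

theorem ASUR_cast_ne {c : ℤ} (hc : c ≠ 0) : (c : 𝓞 K) ≠ 0 := by exact_mod_cast hc

theorem ASUR_cube {a b c d : ℤ} (hb : b ≠ 0) (hd : d ≠ 0) (ha : a ≠ 0) (hc : c ≠ 0)
    (h1 : a ^ 2 * b = c ^ 2 * d)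
    (h2 : a * b ^ 2 = c * d ^ 2) : a = c ∧ b = d := by
  have h3 : a ^ 3 * (a * b ^ 2) = c ^ 3 * (c * d ^ 2) := by
    have e1 : a ^ 3 * (a * b ^ 2) = (a ^ 2 * b) ^ 2 := by ring
    have e2 : c ^ 3 * (c * d ^ 2) = (c ^ 2 * d) ^ 2 := by ring
    rw [e1, e2, h1]
  rw [h2] at h3
  have hne : c * d ^ 2 ≠ 0 := mul_ne_zero hc (pow_ne_zero 2 hd)
  have h4 : a ^ 3 = c ^ 3 := mul_right_cancel₀ hne h3
  have h5 : a = c := by
    have hodd : Odd 3 := by decide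
    exact hodd.strictMono_pow.injective h4
  refine ⟨h5, ?_⟩
  subst h5
  exact mul_left_cancel₀ (pow_ne_zero 2 ha) h1

theorem ASUR (hAIST : AIST_stmt) (hAELE : AELE_stmt) (hAIDL : AIDL_stmt) : ASUR_stmt := by
  intro K _ _ Q f t hT hf hdis hZ hL hco
  obtain ⟨α, γ, u, v, θ, θ', hE⟩ := hAELE K Q f t hT hf hdis hZ.ne' hL.ne'
  obtain ⟨a, L, iα, iγ, pa, pL⟩ := hAIDL K Q f t α γ u v θ θ' hT hf hZ.ne' hL.ne' hco hE
  have hα0 : α ≠ 0 := by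
    rintro rfl
    have h1 := hE.nα
    rw [zero_mul] at h1
    have h2 : ((t.2.2.2 ^ 2 * lam t : ℤ) : 𝓞 K) = 0 := by push_cast; exact h1.symm
    exact ASUR_cast_ne (mul_ne_zero (pow_ne_zero 2 hZ.ne') hL.ne') h2
  have hγ0 : γ ≠ 0 := by
    rintro rfl
    have h1 := hE.nγ
    rw [zero_mul] at h1
    have h2 : ((t.2.2.2 * lam t ^ 2 : ℤ) : 𝓞 K) = 0 := by push_cast; exact h1.symm
    exact ASUR_cast_ne (mul_ne_zero hZ.ne' (pow_ne_zero 2 hL.ne')) h2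
  obtain ⟨F, rfl, rfl, rfl, rfl⟩ := exists_full_of Q a L α γ hα0 hγ0 iα iγ pa pL
  have q1 : F.Z ^ 2 * F.Λ = t.2.2.2 ^ 2 * lam t := by
    apply QF.int_inj (K := K)
    push_cast
    rw [← F.nβ, hE.nα]
  have q2 : F.Z * F.Λ ^ 2 = t.2.2.2 * lam t ^ 2 := by
    apply QF.int_inj (K := K)
    push_cast
    rw [← F.nγ, hE.nγ]
  obtain ⟨eZ, eL⟩ := ASUR_cube F.hΛ hL.ne' F.hZ hZ.ne' q1 q2
  have hLK : ((lam t : ℤ) : 𝓞 K) ≠ 0 := ASUR_cast_ne hL.ne'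
  have hZK : ((t.2.2.2 : ℤ) : 𝓞 K) ≠ 0 := ASUR_cast_ne hZ.ne'
  have eu : F.u = u := by
    apply mul_left_cancel₀ hLK
    rw [← hE.e1, ← eL, ← F.e1]
  have ev : F.v = v := by
    apply mul_left_cancel₀ hZK
    rw [← hE.e2, ← eZ, ← F.e2]
  have eθ : F.α = θ := by
    apply mul_left_cancel₀ (pow_ne_zero 2 hLK)
    rw [← hE.e3, ← eL, ← F.e3]
  have eθ' : F.α' = θ' := by
    apply mul_left_cancel₀ (pow_ne_zero 2 hZK)
    rw [← hE.e4, ← eZ, ← F.e4]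
  have na : t.2.2.2 = (Ideal.absNorm F.a : ℤ) := by
    rw [F.na, eZ, abs_of_pos hZ]
  refine ⟨F.a, F.β, F.γ, ?_⟩
  refine { full := ⟨F, rfl, rfl, rfl, eZ, eL, ?_, ?_, ?_, ?_⟩, tt := hT, d1 := hf, n := hE.yα
           k := hE.yγ, z := na, l := ?_, D := hdis }
  · rw [eu]; exact hE.yu
  · rw [ev]; exact hE.yv
  · rw [eθ]; exact hE.yθ
  · rw [eθ']; exact hE.yθ'
  · have h1 : (Ideal.absNorm (Ideal.span {F.β}) : ℤ) = |t.2.2.2 ^ 2 * lam t| := by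
      apply Q.absNorm_eq
      rw [hE.nα]
      push_cast
      rfl
    have h2 : |t.2.2.2 ^ 2 * lam t| = t.2.2.2 ^ 2 * lam t := abs_of_pos (by positivity)
    rw [h2] at h1
    unfold lamI
    rw [Int.natCast_div, h1]
    push_cast
    rw [← na]
    exact (Int.mul_ediv_cancel_left _ (pow_ne_zero 2 hZ.ne')).symm

end Pool.Agent.T5
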