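import Pool.Agent.helper3.T5.AALG
import Pool.Agent.helper3.T5.ASUR
import Pool.Agent.helper19.T5.ADFA
import Pool.Agent.helper19.T5.ADIN
import Pool.Agent.helper19.T5.AIST
import Pool.Agent.helper23.T5.ASIZ
import Pool.Agent.helper24.T5.AFUL
import Pool.Agent.helper48.T5.AALW
import Pool.Agent.helper58.T5.ALC2
import Pool.Agent.helper58.T5.AELE
import Pool.Agent.helper58.T5.ATPL
import Pool.Agent.helper87.T5.AFPW
import Pool.Agent.helper87.T5.ASQF
import Pool.Agent.helper92.T5.AGEX
import Pool.Agent.helper93.T5.ACEN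
import Pool.Agent.helper3.T5.ACLP
import Pool.Agent.helper20.T5.APRM
import Pool.Agent.helper20.T5.ADVL
import Pool.Agent.helper69.T5.AIDL
import Pool.Agent.helper11.T5.ALC1
import Pool.Agent.helper11.T5.APFU
import Pool.Agent.helper11.T5.APPR
import Pool.Agent.helper11.T5.ARAM

set_option autoImplicit false

/-!
# T5, block A: all statements without hypotheses
-/

namespace Pool.Agent.T5

theorem all_AELE : AELE_stmt := AELE AIST ADVL
theorem all_AIDL : AIDL_stmt := AIDL ARAM
theorem all_ASUR : ASUR_stmt := ASUR AIST all_AELE all_AIDL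
theorem all_ALC1 : ALC1_stmt := ALC1 ARAM
theorem all_ALC2 : ALC2_stmt := ALC2 ARAM APRM ASQF AIST
theorem all_AFPW : AFPW_stmt := AFPW all_ALC1 all_ALC2 APFU
theorem all_AALW : AALW_stmt := AALW ARAM APRM
theorem all_ACLP : ACLP_stmt := ACLP ARAM APRM ASQF
theorem all_AALG : AALG_stmt := AALG AFUL AGEX ATPL ADIN all_ASUR ADFA all_AFPW all_ACLP APPR
theorem all_ALG : ALG_stmt := all_AALG

end Pool.Agent.T5
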