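import Pool.Agent.helper95.T5.InterfaceB
import Pool.Agent.helper8.FT.A5a
import Pool.Agent.helper8.FT.A7
import Pool.Agent.helper52.FT.A6d
import Pool.Agent.helper57.LT.DE

set_option autoImplicit false

/-!
# T5 (MP_16912e_nt), block A: algebra. Ideals and tuples

RULES. Row `t5:XXX` is a file `Pool/Agent/<seat>/T5/XXX.lean`: `import Pool.Agent.helper3.T5.SpecA`, `set_option autoImplicit false`, `namespace Pool.Agent.T5`,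
`open Finset NumberField Pool.Agent.helper3.FT Pool.Agent.helper47.RA`, and `theorem XXX (hYYY : YYY_stmt) .. : XXX_stmt`, whose EXACT line is in the lock note (other rows only as
hypotheses; an unused hypothesis may stay). Auxiliary lemmas are prefixed `XXX_`. No `convert`, `congr!`, `native_decide`, no double quotes.

AVAILABLE (all imported; namespace `Pool.Agent.helper3.FT`): `Pool/Agent/helper61/FT/A1.lean` (`QF.int_inj`, `QF.delta_sq`, `QF.delta_ne_zero`, `QF.cj_int`, `QF.cj_cj`, `QF.exists_re`, `QF.Y_eq`, `QF.Y_add`, `QF.Y_sub`,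
`QF.Y_int`, `QF.Y_int_mul`, `QF.Y_cj`, `QF.sub_cj : a - cj a = Y a * (2ω - t)`, `QF.norm_form`, `QF.absNorm_eq`, `QF.exists_norm`, `QF.exists_trace`, `QF.Y_mul_Y`, `QF.int_dvd_iff`,
`QF.dvd_of_dvd : q prime, q ∣ Y x, q ∣ N x → q ∣ x`), `helper61/FT/A3.lean` (`Full.R1`, `Full.uβ`, `Full.uβ'`, `Full.nu`, `Full.vγ`, `Full.vγ'`, `Full.nv`, `Full.R2`, `Full.R3`, `Full.trβ`, `Full.trγ`, `Full.R4`),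
`helper96/FT/A2.lean` (`pow_inj`, `QF.bar_mul`, `QF.bar_pow`, `QF.bar_span`, `QF.bar_bar`, `QF.absNorm_bar`, `QF.mul_bar : I * bar I = span {absNorm I}`), `helper96/FT/A4a.lean` (`h96_eq_of_dvd`, `h96_norm_q`, `h96_gcd_q`,
`Full.ramified`), `helper96/FT/A4b.lean` (`Full.gcd_dvd`), `helper8/FT/A5a.lean` (`exists_div`, `exists_full_of`), `helper52/FT/A6a.lean` (`exists_swap`, `Full.h52_red`), `A6d.lean`, `helper8/FT/A7.lean` (`fund_unique`),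
`helper57/LT/DE.lean` (`Pool.Agent.helper28.LT.exists_fund` or similar).

NOTATION in the proofs: `F : Full Q`, `n = Y β`, `k = Y γ`, `m = Y u`, `g = Y v`, `R = Y α`, `R' = Y α'` (elements of `F`; the element `α` of the ideal `a ^ 2` is `F.β`, the generator `θ` of `a ^ 5` is `F.α`); `N x = x * cj x`, `δ = 2ω - t`,
`δ² = D`. If `x = x₁ + Y ω` then `N x = x₁² + t x₁ Y - k Y²` (`norm_form`) and `4 N x = (2 x₁ + t Y)² - D Y²`.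
-/

namespace Pool.Agent.T5

open Finset NumberField Pool.Agent.helper3.FT Pool.Agent.helper47.RA

/-- `L = (α) a⁻²` is not divisible by a rational prime -/
def Cont1 {K : Type} [Field K] [NumberField K] (a : Ideal (𝓞 K)) (α : 𝓞 K) : Prop :=
  ∀ p : ℕ, p.Prime → ¬ Ideal.span {(p : 𝓞 K)} * a ^ 2 ∣ Ideal.span {α}

/-- `t` is the reduced tuple of `(a, α, γ)`, `d` the gcd of `Y α`, `Y γ` -/
structure Dat {K : Type} [Field K] [NumberField K] (Q : QF K) (a : Ideal (𝓞 K)) (α γ : 𝓞 K)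
    (d : ℕ) (t : Tpl) : Prop where
  full : ∃ F : Full Q, F.a = a ∧ F.β = α ∧ F.γ = γ ∧ F.Z = t.2.2.2 ∧ F.Λ = lam t ∧
    Q.Y F.u = d * t.2.1 ∧ Q.Y F.v = d * t.2.2.1 ∧ Q.Y F.α = d * RR t ∧ Q.Y F.α' = d * RR' t
  tt : IsT t
  d1 : 1 ≤ d
  n : Q.Y α = d * t.1.1
  k : Q.Y γ = d * t.1.2
  z : t.2.2.2 = (Ideal.absNorm a : ℤ)
  l : lam t = (lamI a α : ℤ)
  D : dis t = Q.D * (d : ℤ) ^ 2

/-- the elements attached to a tuple of discriminant `D f ^ 2` -/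
structure Els {K : Type} [Field K] [NumberField K] (Q : QF K) (f : ℕ) (t : Tpl)
    (α γ u v θ θ' : 𝓞 K) : Prop where
  e1 : α * Q.cj γ = lam t * u
  e2 : α * γ = (t.2.2.2 : ℤ) * v
  e3 : α ^ 2 * Q.cj γ = (lam t) ^ 2 * θ
  e4 : γ ^ 2 * α = (t.2.2.2 : ℤ) ^ 2 * θ'
  nα : α * Q.cj α = (t.2.2.2 : ℤ) ^ 2 * lam t
  nγ : γ * Q.cj γ = (t.2.2.2 : ℤ) * (lam t) ^ 2
  yα : Q.Y α = f * t.1.1
  yγ : Q.Y γ = f * t.1.2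
  yu : Q.Y u = f * t.2.1
  yv : Q.Y v = f * t.2.2.1
  yθ : Q.Y θ = f * RR t
  yθ' : Q.Y θ' = f * RR' t

/-! ## From ideals to tuples -/

/-- **AFUL** (short to medium). `α ∈ a²`: `(α) = a² L` (`Ideal.dvd_iff_le`), `L` is primitive by `Cont1`. `IsGam`: `γ θ = Z α²`, `Z = absNorm a`, `(Z) = a ā` (`QF.mul_bar`), so `(γ) a⁵ = a ā a⁴ L²`, cancel `a⁵ ≠ ⊥`: `(γ) = ā L²`;
`γ ≠ 0` (`Z α² ≠ 0`). `exists_full_of` gives `F`. For `D < 0` and `x ≠ 0`: `N x > 0` (`4 N x = (2x₁ + tY)² - D Y²`). So `F.Z² F.Λ > 0`, `F.Z F.Λ² > 0`: `F.Z, F.Λ > 0`, `F.Z = absNorm a` (`F.na`), `F.Λ = absNorm L`, and `absNorm (α) = absNorm a ^ 2 * absNorm L`,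
so `lamI = absNorm L`. Last claim: `Λ² γ F.α = γ β² γ̄ = β² Z Λ²`. -/
def AFUL_stmt : Prop := ∀ (K : Type) [Field K] [NumberField K] (Q : QF K), Q.D < 0 → ∀ (a : Ideal (𝓞 K)) (α γ : 𝓞 K),
  a ≠ ⊥ → Prim a → α ∈ a ^ 2 → α ≠ 0 → Cont1 a α → IsGam a α γ →
  ∃ F : Full Q, F.a = a ∧ F.β = α ∧ F.γ = γ ∧ F.Z = (Ideal.absNorm a : ℤ) ∧ F.Λ = (lamI a α : ℤ) ∧
    γ * F.α = (Ideal.absNorm a : 𝓞 K) * α ^ 2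

/-- **AGEX** (short). Existence and uniqueness of `γ`. (1) `a⁵ = (θ)`, `(α) = a² L`; `(Z α²) = a ā a⁴ L² = (θ) ā L²`, so `θ ∣ Z α²` (`exists_div_aux` or `Ideal.mem_span_singleton`). (2) `-θ` generates `a⁵`. (3) `-α`: the same `θ`. (4) `(θ) = (θ')`: `θ' = ε θ`, `ε` a unit; `γ θ = γ' θ' = γ' ε θ`, so `γ = ε γ'`
(`θ ≠ 0`). `D < -4`: `N ε = ±1`, `4 N ε = (2x₁ + tY)² - D Y²`, so `Y = 0` and `ε = x₁ = ±1`. -/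
def AGEX_stmt : Prop := ∀ (K : Type) [Field K] [NumberField K] (Q : QF K) (a : Ideal (𝓞 K)) (α : 𝓞 K), a ≠ ⊥ →
  ((a ^ 5).IsPrincipal → α ∈ a ^ 2 → ∃ γ, IsGam a α γ) ∧ (∀ γ, IsGam a α γ → IsGam a α (-γ)) ∧
  (∀ γ, IsGam a α γ → IsGam a (-α) γ) ∧
  (Q.D < -4 → ∀ γ γ', IsGam a α γ → IsGam a α γ' → γ' = γ ∨ γ' = -γ)

/-- **ATPL** (medium). The reduced tuple. `d = gcd (Y β) (Y γ)`. `Full.h52_red` (`Pool/Agent/helper52/FT/A6a.lean`) gives `n = d n₁, k = d k₁, m = d m₁, g = d g₁, R = d y, R' = d y'` and `m₁ g₁ = Λ n₁² - Z k₁²`, `-(k₁ y) = m₁² - Z n₁²`, `n₁ y' = g₁² - Λ k₁²`, `D (d n₁ k₁)² = (Z g₁ - Λ m₁)² - 4 Z² Λ k₁²`;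
`t = ((n₁, k₁), (m₁, g₁, Z))` (`toNat` of positive numbers). `lam t = Λ`, `RR t = y`, `RR' t = y'`, `dis t = D d²` by `Int.ediv_eq_of_eq_mul_left` or similar. `c1`: `Z k₁⁴ + m₁ g₁ k₁² - g₁² n₁² = Λ n₁² k₁² - g₁² n₁² = - n₁³ y'`. `c2`: `m₁² - Z n₁² = - k₁ y`. `Z, Λ > 0` as in AFUL (`D < 0`), so `z`: `F.na`; `l`: `F.nL`, `F.iβ`. -/
def ATPL_stmt : Prop := ∀ (K : Type) [Field K] [NumberField K] (Q : QF K), Q.D < 0 → ∀ F : Full Q,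
  0 < Q.Y F.β → 0 < Q.Y F.γ → ∃ (d : ℕ) (t : Tpl), Dat Q F.a F.β F.γ d t

/-- **ADIN** (short to medium). Everything is determined by `t`, and `t` by `(a, α, γ)`. (1) `fund_unique` for `D d² = D' d'²`, then `d² = d'²` (`D ≠ 0`: `D_ne_zero`). (2) Let `F`, `F'` be the two `Full`s. `Y α = d n = Y α'`, `Y γ = Y γ'`; `Full.trβ`: `(Y γ) (α + ᾱ) = Z Y v - Λ Y u` is the same number for both, `Y γ ≠ 0`: `α + ᾱ = α' + ᾱ'`,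
so `α = α'` (`h52_ext` in `A6a.lean`); the same for `γ` (`Full.trγ`). `Λ² F.α = β² γ̄` (`F.e3`) is the same for both, `(F.α) = a⁵`, `pow_inj`. (Compare `Full.tup_inj`.) (3) `d` divides `Y α, Y γ` with coprime quotients, so `d = gcd = d'`; `n, k` the same; `Z = absNorm a`, `Λ = lamI`; `F.e1`, `F.e2`: `Λ u = α γ̄`, `Z v = α γ` (`Λ, Z ≠ 0`), so `m, g` the same. -/
def ADIN_stmt : Prop :=
  (∀ D D' : ℤ, IsFund D → IsFund D' → ∀ d d' : ℕ, 1 ≤ d → 1 ≤ d' → D * (d : ℤ) ^ 2 = D' * (d' : ℤ) ^ 2 → D = D' ∧ d = d') ∧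
  (∀ (K : Type) [Field K] [NumberField K] (Q : QF K) (a a' : Ideal (𝓞 K)) (α γ α' γ' : 𝓞 K) (d d' : ℕ) (t : Tpl),
    Dat Q a α γ d t → Dat Q a' α' γ' d' t → d = d' ∧ a = a' ∧ α = α' ∧ γ = γ') ∧
  (∀ (K : Type) [Field K] [NumberField K] (Q : QF K) (a : Ideal (𝓞 K)) (α γ : 𝓞 K) (d d' : ℕ) (t t' : Tpl),
    Dat Q a α γ d t → Dat Q a α γ d' t' → d = d' ∧ t = t')

/-! ## From tuples to ideals -/

/-- **AIST** (medium; pure arithmetic). Write `n, k, m, g, Z` for the entries. `c1` modulo `n²`: `n² ∣ k² (Z k² + m g)`, so `n² ∣ Z k² + m g` (coprime): `Λ n² = m g + Z k²`. Then `c1` is `n³ ∣ n² (Λ k² - g²)`: `n ∣ g² - Λ k²`. `R` by `c2`.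
`k² (Z g + Λ m) = g (Z k² + m g) + m (Λ k² - g²) = g Λ n² - m n R'`: `n ∣ Z g + Λ m`: `C`. `n² (Z g - Λ m) = g (Z n² - m²) + m (m g - Λ n²) = k (g R - m k Z)`: `k ∣ Z g - Λ m`: `A`, and `n² A = g R - m k Z`. `(Z g - Λ m)² = (Z g + Λ m)² - 4 Z Λ m g`,
`m g = Λ n² - Z k²`: `k² (A² - 4 Z² Λ) = n² (C² - 4 Z Λ²)`, so `n² ∣ A² - 4 Z² Λ`, `k² ∣ C² - 4 Z Λ²`, both quotients are `dis t`. `n` or `k` is odd: `dis t = A²` or `C²` modulo 4 up to an odd square: 0 or 1. -/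
def AIST_stmt : Prop := ∀ t : Tpl, IsT t →
  lam t * (t.1.1 : ℤ) ^ 2 = t.2.1 * t.2.2.1 + t.2.2.2 * (t.1.2 : ℤ) ^ 2 ∧
  (t.1.2 : ℤ) * RR t = t.2.2.2 * (t.1.1 : ℤ) ^ 2 - t.2.1 ^ 2 ∧
  (t.1.1 : ℤ) * RR' t = t.2.2.1 ^ 2 - lam t * (t.1.2 : ℤ) ^ 2 ∧
  (∃ A C : ℤ, (t.1.2 : ℤ) * A = t.2.2.2 * t.2.2.1 - lam t * t.2.1 ∧
    (t.1.1 : ℤ) * C = t.2.2.2 * t.2.2.1 + lam t * t.2.1 ∧
    (t.1.1 : ℤ) ^ 2 * A = t.2.2.1 * RR t - t.2.1 * t.1.2 * t.2.2.2 ∧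
    dis t * (t.1.1 : ℤ) ^ 2 = A ^ 2 - 4 * t.2.2.2 ^ 2 * lam t ∧
    dis t * (t.1.2 : ℤ) ^ 2 = C ^ 2 - 4 * t.2.2.2 * lam t ^ 2) ∧
  dis t * ((t.1.1 : ℤ) * t.1.2) ^ 2 = (t.2.2.2 * t.2.2.1 - lam t * t.2.1) ^ 2 - 4 * t.2.2.2 ^ 2 * lam t * (t.1.2 : ℤ) ^ 2 ∧
  (dis t % 4 = 0 ∨ dis t % 4 = 1)

/-- **ADVL** (short). `x = x₁ + Y ω`, `T = 2 x₁ + t Y`; `T² = D Y² + 4 c² N`, so `c² ∣ T²`, `c ∣ T`; with `T = c T'`, `Y = c Y'`: `T'² = D Y'² + 4 N`, so `T' = D Y' = t Y'` modulo 2, `2 x₁ = c (T' - t Y')`, so `c ∣ x₁` ; `int_dvd_iff`. -/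
def ADVL_stmt : Prop := ∀ (K : Type) [Field K] [NumberField K] (Q : QF K) (x : 𝓞 K) (c N : ℤ), c ≠ 0 → c ∣ Q.Y x →
  x * Q.cj x = ((c ^ 2 * N : ℤ) : 𝓞 K) → (c : 𝓞 K) ∣ x

/-- **AELE** (medium; from AIST, ADVL). `A, C` from AIST; `A² - D (f n)² = 4 Z² Λ`, so `A = D f n = t f n` modulo 2 and `α = (A - t f n)/2 + f n ω` has `Y α = f n`, `α + ᾱ = A`, `N α = Z² Λ`; the same for `γ` with `C`, `f k`, `Z Λ²`. `2 Y(α γ̄) = f (n C - k A) = 2 f Λ m`, `2 Y(α γ) = f (n C + k A) = 2 f Z g`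
(for `2x = T + Y δ`, `2x' = T' + Y' δ`: `2 Y(x x') = T Y' + T' Y`). ADVL with `c = Λ`, `N (α γ̄) = Z³ Λ³`: `α γ̄ = Λ u`; `c = Z`: `α γ = Z v`. `u ᾱ = Z² γ̄`, `v γ̄ = Λ² α` (cancel), `N u = Z³ Λ`, `N v = Z Λ³`. `QF.Y_mul_Y` for `u, α`: `Y(u α) Y(u ᾱ) = N α (Y u)² - N u (Y α)²`, i.e. `-Z² f k Y(u α) = Z² Λ f² (m² - Z n²)`,
so `Y(u α) = Λ f R`; ADVL with `c = Λ`, `N (u α) = Z⁵ Λ²`: `u α = Λ θ`, so `Λ² θ = Λ u α = α² γ̄`, `Y θ = f R`. `v, γ`: `Y(v γ) Λ² f n = N γ (Y v)² - N v (Y γ)² = Z Λ² f² (g² - Λ k²)`, so `Y(v γ) = Z f R'`, `N (v γ) = Z² Λ⁵`, `v γ = Z θ'`. -/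
def AELE_stmt : Prop := ∀ (K : Type) [Field K] [NumberField K] (Q : QF K) (f : ℕ) (t : Tpl), IsT t → 1 ≤ f →
  dis t = Q.D * (f : ℤ) ^ 2 → t.2.2.2 ≠ 0 → lam t ≠ 0 → ∃ α γ u v θ θ' : 𝓞 K, Els Q f t α γ u v θ θ'

/-- **ARAM** (short). A ramified prime `p` (`p ∣ D`) with `p² ∣ N x` divides `x`. `x = x₁ + Y ω`, `T = 2 x₁ + t Y`, `T² = D Y² + 4 N`. `p` odd: `p ∣ T`, so `p² ∣ D Y²`, `p² ∤ D` (`Q.hD`, squarefree odd part), so `p ∣ Y`, and `QF.dvd_of_dvd`. `p = 2`: `D = 4 m`, `t = 0`, `Q.k = m`, `m = 2` or `3` modulo 4; `4 ∣ x₁² - m Y²` forces `Y` even (and `x₁` even)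
(`m = 2` mod 4: `x₁` even, `4 ∣ 2 Y²`; `m = 3` mod 4: `4 ∣ x₁² + Y²`); `QF.dvd_of_dvd`. -/
def ARAM_stmt : Prop := ∀ (K : Type) [Field K] [NumberField K] (Q : QF K) (x : 𝓞 K) (N : ℤ) (p : ℕ), p.Prime →
  (p : ℤ) ∣ Q.D → x * Q.cj x = (N : 𝓞 K) → (p : ℤ) ^ 2 ∣ N → (p : 𝓞 K) ∣ x

/-- **AIDL** (medium; from ARAM). `Z, Λ` for `t.2.2.2`, `lam t`; `a = span {α, γ̄, Z}`, `L = span {α, γ, Λ}`. Relations (cancel nonzero integers): `u ᾱ = Z² γ̄`, `α ū = Z² γ`, `v γ̄ = Λ² α`, `v̄ γ = Λ² ᾱ`, `α v̄ = Z Λ γ̄` (from `ᾱ γ̄ = Z v̄` and `α ᾱ = Z² Λ`), `u γ = Z Λ α` (from `α γ̄ = Λ u`), `Λ γ̄² = α θ̄'` (from `e4`), `θ γ = Z α²` (from `e3`).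
(M) The ideal `M = span {α, ᾱ, γ, γ̄, Z, Λ²}` is `⊤`: otherwise `M ≤ P` maximal, `P` contains a rational prime `p` (`Ideal.absNorm_mem`, `Ideal.exists_..`; e.g. `Z ∈ P`, `P ∩ ℤ` is a prime ideal), `p ∣ Z`, `p ∣ Λ`, so `p ∤ f`. `α - ᾱ = f n δ`, `γ - γ̄ = f k δ` are in `P`, `n, k` are coprime, so `δ ∈ P`, `D = δ² ∈ P`, `p ∣ D`. `p² ∣ N α, N γ`:
ARAM: `p ∣ α, γ`, so `p ∣ f n, f k`, so `p ∣ n, k`, a contradiction. (For `L` use `M' = span {α, ᾱ, γ, γ̄, Z², Λ}`: the same.)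
(a) `a ā = (Z)`: all products of the generators `α, γ̄, Z` and `ᾱ, γ, Z` are in `(Z)` (`α ᾱ = Z² Λ`, `α γ = Z v`, `γ γ̄ = Z Λ²`), and `a ā` contains `Z α, Z ᾱ, Z γ, Z γ̄, Z², Z Λ²`, so `(Z) M ≤ a ā`. So `absNorm a = |Z|` (`absNorm_bar`, norms: `(absNorm a)² = Z²`). The same for `L`: `L L̄ = (Λ)`.
(b) `a² L ≤ (α)`: products `x y w`, `x, y ∈ {α, γ̄, Z}`, `w ∈ {α, γ, Λ}` without `α`: `γ̄² γ = γ̄ Z Λ² = Λ α v̄`; `γ̄² Λ = α θ̄'`; `γ̄ Z γ = Z² Λ² = Λ α ᾱ`; `γ̄ Z Λ = α v̄`; `Z² γ = α ū`; `Z² Λ = α ᾱ`. Norms: `absNorm (a² L) = Z² |Λ| = absNorm (α)`, so equality (`h96_eq_of_dvd`).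
(c) `ā L² ≤ (γ)`: `x ∈ {ᾱ, γ, Z}`, `y, w ∈ {α, γ, Λ}` without `γ`: `ᾱ α² = Z² Λ α = Z γ u`; `ᾱ α Λ = Z² Λ² = Z γ γ̄`; `ᾱ Λ² = v̄ γ`; `Z α² = θ γ`; `Z α Λ = γ u`; `Z Λ² = γ γ̄`. Norms.
(d) Prim: `(q) ∣ a` gives `q ∣ α`, `q ∣ γ̄`, `q ∣ Z`: `q ∤ f`, `q ∣ f n, f k`: contradiction; `(q) ∣ L`: the same with `Λ`. -/
def AIDL_stmt : Prop := ∀ (K : Type) [Field K] [NumberField K] (Q : QF K) (f : ℕ) (t : Tpl) (α γ u v θ θ' : 𝓞 K),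
  IsT t → 1 ≤ f → t.2.2.2 ≠ 0 → lam t ≠ 0 → (∀ p : ℕ, p.Prime → p ∣ f → ¬ (p : ℤ) ∣ t.2.2.2 ∧ ¬ (p : ℤ) ∣ lam t) →
  Els Q f t α γ u v θ θ' → ∃ a L : Ideal (𝓞 K), Ideal.span {α} = a ^ 2 * L ∧ Ideal.span {γ} = Q.bar a * L ^ 2 ∧
    Prim a ∧ Prim L

/-- **ASUR** (short to medium; from AIST, AELE, AIDL). Elements by AELE, ideals by AIDL, `exists_full_of`: `F` with `F.β = α`, `F.γ = γ`. `F.Z² F.Λ = Z² Λ`, `F.Z F.Λ² = Z Λ²` (`F.nβ, F.nγ`, `int_inj`): `F.Z³ = (F.Z² F.Λ)² / (F.Z F.Λ²) = Z³`, so `F.Z = Z`, `F.Λ = Λ`. `F.u = u` (`F.e1`, cancel `Λ`), `F.v = v`, `F.α = θ`, `F.α' = θ'`.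
`z`: `F.na`, `Z > 0`; `l`: `absNorm (α) = |N α| = Z² Λ` (`QF.absNorm_eq`), so `lamI = Λ`. `D` is the hypothesis.  -/
def ASUR_stmt : Prop := ∀ (K : Type) [Field K] [NumberField K] (Q : QF K) (f : ℕ) (t : Tpl), IsT t → 1 ≤ f →
  dis t = Q.D * (f : ℤ) ^ 2 → 0 < t.2.2.2 → 0 < lam t →
  (∀ p : ℕ, p.Prime → p ∣ f → ¬ (p : ℤ) ∣ t.2.2.2 ∧ ¬ (p : ℤ) ∣ lam t) →
  ∃ (a : Ideal (𝓞 K)) (α γ : 𝓞 K), Dat Q a α γ f t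

/-- **ADFA** (short). Facts from `Dat`: `F` the `Full`. `a ≠ ⊥` (`F.iβ`, `F.na`, `F.hZ`), `Prim` is `F.pa`, `F.iα : (F.α) = a⁵`; `α ∈ a²` by `F.iβ`; `Cont1`: `(p) a² ∣ a² L` gives (cancel `a²`) `(p) ∣ L` against `F.pL`; `IsGam` with `θ = F.α`: `Λ² γ F.α = γ β² γ̄ = β² Z Λ²`; `v₁ α ^ 2 = v₁ α * v₂ α = absNorm (α) = Z² Λ` (`Q.himag`, `Q.hnorm`, `F.iβ`).
`0 < Z`: `z` and `F.hZ`; `0 < lam`: `l` and `F.hΛ`. -/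
def ADFA_stmt : Prop := ∀ (K : Type) [Field K] [NumberField K] (Q : QF K), Q.D < 0 → ∀ (a : Ideal (𝓞 K)) (α γ : 𝓞 K) (d : ℕ) (t : Tpl),
  Dat Q a α γ d t → a ≠ ⊥ ∧ Prim a ∧ (a ^ 5).IsPrincipal ∧ α ∈ a ^ 2 ∧ Cont1 a α ∧ IsGam a α γ ∧
    (Q.v₁ α) ^ 2 = (Ideal.absNorm a : ℝ) ^ 2 * (lam t : ℝ) ∧ 0 < t.2.2.2 ∧ 0 < lam t ∧ 0 < Q.Y α ∧ 0 < Q.Y γ

/-! ## Local conditions -/

/-- **APRM** (short to medium). Ramified primes and primitive ideals. `p² ∣ absNorm a`: the ideal `P = a ⊔ (p)` is not `⊤` (otherwise `absNorm a` is prime to `p`: `a ⊔ (p) = ⊤` gives `x + p y = 1`, `x ∈ a`, and `N x` is prime to `p`; or use `h96_gcd_q`), so `absNorm P = p` (`h96_gcd_q`, `Prim a`). `p ∣ D`: every ideal `P` of norm `p` has `P̄ = P`, `P² = (p)`: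
`P P̄ = (p)` (`QF.mul_bar`), and `δ ∈ P` because `δ² = D ∈ P` (`P` is prime, `h96_prime_of_norm`), so `x - x̄ = Y x δ ∈ P` for all `x`, `P̄ = P`. `a = P b`; if `p ∣ absNorm b` then `b ⊔ (p)` has norm `p` again (`Prim b`), it is a prime `P'` with `P' P' = (p) = P P`, so `P' = P`, `P ∣ b`, `(p) = P² ∣ a`: contradiction. -/
def APRM_stmt : Prop := ∀ (K : Type) [Field K] [NumberField K] (Q : QF K) (a : Ideal (𝓞 K)) (p : ℕ), p.Prime →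
  (p : ℤ) ∣ Q.D → a ≠ ⊥ → Prim a → ¬ p ^ 2 ∣ Ideal.absNorm a

/-- **ASQF** (short). `p ∤ D`: `(p)` is a radical ideal. If `p ∣ x²`: `p² ∣ N(x²) = (N x)²`, `p ∣ N x`; with `T = x + x̄` (an integer): `T x = x² + N x` is divisible by `p`; if `p ∤ T` then `p ∣ x`; if `p ∣ T`: `T² = D Y² + 4 N`, so `p ∣ Y` (`p ∤ D`), and `QF.dvd_of_dvd`. So `p ∣ x^j` implies `p ∣ x` (`j ≥ 1`; `x^(2^i)`, `j ≤ 2^i`).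
`(p) ∣ I^j`: for `x ∈ I`, `x^j ∈ (p)`, so `x ∈ (p)`. -/
def ASQF_stmt : Prop := ∀ (K : Type) [Field K] [NumberField K] (Q : QF K) (p j : ℕ), p.Prime → ¬ (p : ℤ) ∣ Q.D → 1 ≤ j →
  (∀ x : 𝓞 K, (p : 𝓞 K) ∣ x ^ j → (p : 𝓞 K) ∣ x) ∧
  ∀ I : Ideal (𝓞 K), Ideal.span {(p : 𝓞 K)} ∣ I ^ j → Ideal.span {(p : 𝓞 K)} ∣ I

/-- **ALC1** (short; from ARAM). `p ∣ D`, `p ∣ Z`: `p² ∣ N α = Z² Λ`, ARAM: `p ∣ α`, so `p ∣ Y α = d n` (`QF.int_dvd_iff`, `exists_re`): contradiction. -/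
def ALC1_stmt : Prop := ∀ (K : Type) [Field K] [NumberField K] (Q : QF K) (a : Ideal (𝓞 K)) (α γ : 𝓞 K) (d : ℕ) (t : Tpl) (p : ℕ),
  Dat Q a α γ d t → p.Prime → ¬ p ∣ d → ¬ p ∣ t.1.1 → (p : ℤ) ∣ t.2.2.2 → ¬ (p : ℤ) ∣ Q.D

/-- **ALC2** (medium; from ARAM, APRM, ASQF, AIST). `p ∣ n`, so `p ∤ k` (`IsT.co`). `F` the `Full`; all `Y` are `d` times the entries of `t` and `p ∤ d`.
`→`: `p² ∤ Z` by APRM. `N v = Z Λ³` is divisible by `p` exactly once: `p ∣ Y v` would give `p ∣ v` (`QF.dvd_of_dvd`), `p² ∣ N v`: so `p ∤ g`. `N u = Z³ Λ` is divisible by `p` exactly three times: ARAM: `u = p u₁`, `N u₁ = Z³ Λ / p²` is divisible by `p` exactly once, so `p ∤ Y u₁` as before: `p ∥ m`.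
`←`: `m g = Λ n² - Z k²` (AIST), `p² ∣ Λ n²`, `p² ∤ m g`, `p ∣ m g`: `p ∣ Z`. `n R' = g² - Λ k²`: `p ∤ Λ` because `p ∤ g`. Suppose `p ∤ D`. `p ∣ Y α`, `p ∣ N α`: `p ∣ α` (`QF.dvd_of_dvd`). `Λ² θ = α² γ̄` and `p ∤ Λ`: `p ∣ θ` (`p ∣ Λ² θ`, Bezout), so `(p) ∣ (θ) = a⁵`, ASQF: `(p) ∣ a` against `Prim a`. -/
def ALC2_stmt : Prop := ∀ (K : Type) [Field K] [NumberField K] (Q : QF K) (a : Ideal (𝓞 K)) (α γ : 𝓞 K) (d : ℕ) (t : Tpl) (p : ℕ),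
  Dat Q a α γ d t → p.Prime → ¬ p ∣ d → p ∣ t.1.1 →
  (((p : ℤ) ∣ t.2.2.2 ∧ (p : ℤ) ∣ Q.D ∧ ¬ (p : ℤ) ∣ lam t) ↔
    (¬ p ∣ t.1.2 ∧ ¬ (p : ℤ) ∣ t.2.2.1 ∧ (p : ℤ) ∣ t.2.1 ∧ ¬ (p : ℤ) ^ 2 ∣ t.2.1))

/-- **APFU** (short). `p` odd: `p² ∣ D d²` gives `p² ∣ D`, and `p² ∤ D` (squarefree, or `D = 4 m`, `m` squarefree). `p = 2`: `d` odd, `d² = 1` modulo 8: `D` odd: `D d²` odd; `D = 4 m`, `m = 2, 3` modulo 4: `D d² = D` modulo 16 is 8 or 12. -/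
def APFU_stmt : Prop := ∀ (D : ℤ) (d p : ℕ), IsFund D → p.Prime → ¬ p ∣ d → Pfund p (D * (d : ℤ) ^ 2)

/-- **AFPW** (short; from ALC1, ALC2, APFU). `p ∣ Y α ↔ p ∣ n`, `p ∣ absNorm a ↔ p ∣ Z`, `p ∣ lamI ↔ p ∣ Λ` (`Dat.n, z, l`, `p ∤ d`). `p ∣ n`: `alw` is the left side of ALC2; if it holds then `p ∣ D`, weight `p / (p - 1)`. `p ∤ n`: the second alternative of `alw` is excluded by ALC1, so `alw ↔ ¬ (p ∣ Z ∧ p ∣ Λ)`; APFU for `dis t = D d²`; if `p ∣ Z` then `p ∤ D` (ALC1). -/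
def AFPW_stmt : Prop := ∀ (K : Type) [Field K] [NumberField K] (Q : QF K) (a : Ideal (𝓞 K)) (α γ : 𝓞 K) (d : ℕ) (t : Tpl),
  Dat Q a α γ d t →
  (∀ p : ℕ, p.Prime → ¬ p ∣ d → fp p t = wf Q p a α) ∧
  ∀ w : ℕ, (∀ p ∈ pr w, ¬ p ∣ d) → fw w t = wt Q w a α

/-- **AALW** (short to medium; from ARAM, APRM, AFUL). (1) first alternative of `alw`: clear. Second: `p ∣ Z`, `p ∣ D`, `p ∤ Λ`: `p² ∤ Z` (APRM), so `N γ = Z Λ²` is divisible by `p` exactly once; `p ∣ Y γ` would give `p ∣ γ` (`QF.dvd_of_dvd`), `p² ∣ N γ`. (`lamI F.a F.β = |F.Λ|`, `F.na`.)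
(2) `(p) a² ∣ (α)`: `α ∈ (p)`, so `p ∣ Y α`; and it gives `p² Z² ∣ absNorm (α)`, so `p² ∣ lamI` (`α ≠ 0`). Both alternatives of `alw` fail. -/
def AALW_stmt : Prop :=
  (∀ (K : Type) [Field K] [NumberField K] (Q : QF K) (F : Full Q) (p : ℕ), p.Prime → alw Q p F.a F.β →
    ¬ ((p : ℤ) ∣ Q.Y F.β ∧ (p : ℤ) ∣ Q.Y F.γ)) ∧
  (∀ (K : Type) [Field K] [NumberField K] (Q : QF K) (a : Ideal (𝓞 K)) (α : 𝓞 K) (p : ℕ), p.Prime → a ≠ ⊥ → α ≠ 0 →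
    alw Q p a α → ¬ Ideal.span {(p : 𝓞 K)} * a ^ 2 ∣ Ideal.span {α})

/-- **ACLP** (medium; from ARAM, APRM, ASQF). `p ∣ d`, so `p ∣ Y α`, `p ∣ Y γ`. `p` divides `α` and `γ`: if `p ∣ Z`: `p ∣ N α`, `p ∣ N γ` and `QF.dvd_of_dvd`; if `p ∣ Λ`: the same. `Full.ramified`: `P² = (p)`, `P ∣ a`, `P ∣ L`. So `p ∣ D`: otherwise ASQF (`j = 2`, `I = P`): `P² ∣ P`, impossible. `P ∣ a`, `P ∣ L`, norms: `p ∣ Z`, `p ∣ Λ`, both exactly once (APRM for `a` and for `F.L`).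
`N α = Z² Λ` is divisible by `p` exactly three times: `α = p α₁`, `p ∥ N α₁`, so `p ∤ Y α₁` (`QF.dvd_of_dvd`), so `p² ∤ Y α` and `p² ∤ d`. `N u = Z³ Λ` is divisible by `p⁴`: ARAM twice: `p² ∣ u`, `p² ∣ Y u = d m`, `p² ∤ d`: `p ∣ m`. `N v = Z Λ³`: the same: `p ∣ g`.
Second claim: `d₁` = the product of the primes `p ∣ d` with `p ∣ Z lam t` (squarefree, each divides `d`, `m`, `g`: `Finset.prod_primes_dvd`); a prime `q` dividing `d / d₁` and `Z lam t` divides `d₁`, so `q² ∣ d`: contradiction; the same for a prime dividing `d₁` and `d / d₁`. -/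
def ACLP_stmt : Prop := ∀ (K : Type) [Field K] [NumberField K] (Q : QF K) (a : Ideal (𝓞 K)) (α γ : 𝓞 K) (d : ℕ) (t : Tpl),
  Dat Q a α γ d t →
  (∀ p : ℕ, p.Prime → p ∣ d → ((p : ℤ) ∣ t.2.2.2 ∨ (p : ℤ) ∣ lam t) → ¬ p ^ 2 ∣ d ∧ (p : ℤ) ∣ t.2.1 ∧ (p : ℤ) ∣ t.2.2.1) ∧
  ∃ d₁ : ℕ, d₁ ∣ d ∧ Nat.Coprime d₁ (d / d₁) ∧ (d₁ : ℤ) ∣ t.2.1 ∧ (d₁ : ℤ) ∣ t.2.2.1 ∧
    ∀ q : ℕ, q.Prime → q ∣ d / d₁ → ¬ (q : ℤ) ∣ t.2.2.2 ∧ ¬ (q : ℤ) ∣ lam t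

/-! ## Regions and sizes -/

/-- **ACEN** (short to medium). `√(-dis t) = d √(-D)` (`T.D`). `s1`: `n √(-dis) = n d √(-D) = Y α √(-D)`, and `lamI = lam t`, `Z = absNorm a`; `s2`: `k √(-dis) = k d √(-D) = |Y γ| √(-D)`. `l2`: `(v₁ α)² = v₁ α v₂ α = absNorm (α)` (`Q.himag`, `Q.hnorm`) `= Z² lam t` (`(absNorm a)²` divides `absNorm (α)` because `α ∈ a²`; `T.L`),
so the condition on `v₁ α` is `lam t ≤ Y₂ √(-D) / √N`, i.e. `lam t √(N d²) = lam t d √N ≤ Y₂ d √(-D)`. (`Z > 0` as `a ≠ ⊥`.) -/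
def ACEN_stmt : Prop := ∀ (K : Type) [Field K] [NumberField K] (Q : QF K), Q.D < 0 → ∀ (a : Ideal (𝓞 K)) (α γ : 𝓞 K) (d : ℕ) (t : Tpl),
  Adm Q a α γ → TupOf Q a α γ d t → 1 ≤ d → ∀ κ N Y Y₂ : ℝ, 0 < N → 0 < Y → 0 < Y₂ →
  (Cen κ (N * (d : ℝ) ^ 2) Y Y₂ t ↔
    (Y / 2 < (Ideal.absNorm a : ℝ) ∧ (Ideal.absNorm a : ℝ) ≤ Y ∧ N / 2 < -(Q.D : ℝ) ∧ -(Q.D : ℝ) ≤ N ∧
      (Q.v₁ α) ^ 2 ≤ (Ideal.absNorm a : ℝ) ^ 2 * (Y₂ * √(-(Q.D : ℝ)) / √N) ∧ GoodR Q κ Y₂ a α γ))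

/-- **APPR** (short). `a = (x)`, `absNorm a = N x = x₁² + t x₁ Y - k Y²`, `4 N x = (2 x₁ + t Y)² - D Y² ≥ -D Y²`; `4 absNorm a < -D` gives `Y = 0`, `x = x₁` an integer, and `Prim a` gives `x₁ = ±1` (a prime `q ∣ x₁` has `(q) ∣ a`). -/
def APPR_stmt : Prop := ∀ (K : Type) [Field K] [NumberField K] (Q : QF K) (a : Ideal (𝓞 K)), a ≠ ⊥ → Prim a →
  a.IsPrincipal → 4 * (Ideal.absNorm a : ℤ) < -Q.D → Ideal.absNorm a = 1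

/-- **ASIZ** (short). For `x * x̄ = N`: `4 N = (2 x₁ + t Y)² - D Y² ≥ -D Y²`. Apply to `β, γ, u, v, α, α'` (`Full.nu`, `Full.nv`; `N α = Z⁵` from `e3`: `Λ⁴ N α = N(β)² N(γ) = Z⁵ Λ⁴`; `N α' = Λ⁵`). -/
def ASIZ_stmt : Prop :=
  (∀ (K : Type) [Field K] [NumberField K] (Q : QF K) (x : 𝓞 K) (N : ℤ), x * Q.cj x = (N : 𝓞 K) → -Q.D * (Q.Y x) ^ 2 ≤ 4 * N) ∧
  ∀ (K : Type) [Field K] [NumberField K] (Q : QF K) (F : Full Q),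
    -Q.D * (Q.Y F.β) ^ 2 ≤ 4 * (F.Z ^ 2 * F.Λ) ∧ -Q.D * (Q.Y F.γ) ^ 2 ≤ 4 * (F.Z * F.Λ ^ 2) ∧
    -Q.D * (Q.Y F.u) ^ 2 ≤ 4 * (F.Z ^ 3 * F.Λ) ∧ -Q.D * (Q.Y F.v) ^ 2 ≤ 4 * (F.Z * F.Λ ^ 3) ∧
    -Q.D * (Q.Y F.α) ^ 2 ≤ 4 * F.Z ^ 5 ∧ -Q.D * (Q.Y F.α') ^ 2 ≤ 4 * F.Λ ^ 5

/-! ## The interface statement -/

/-- the corrected ALG (last clause: `1 < Z`); replaced by `ALG_stmt` of `InterfaceB` when that is corrected -/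
def AALG_stmt : Prop :=
  ∀ (K : Type) [Field K] [NumberField K] (Q : QF K), Module.finrank ℚ K = 2 → Q.D < -4 →
  ∃ φ : Ideal (𝓞 K) → 𝓞 K → Tpl,
    (∀ a α γ, Adm Q a α γ → TupOf Q a α γ (gd Q α γ) (φ a α)) ∧
    (∀ a α γ a' α' γ', Adm Q a α γ → Adm Q a' α' γ' → gd Q α γ = gd Q α' γ' →
      φ a α = φ a' α' → a = a' ∧ α = α') ∧
    (∀ (t : Tpl) (f : ℕ), 1 ≤ f → IsT t → 0 < t.2.2.2 → 0 < lam t → dis t = Q.D * (f : ℤ) ^ 2 →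
      IsCoprime (f : ℤ) (t.2.2.2 * lam t) →
      ∃ a α γ, Adm Q a α γ ∧ gd Q α γ = f ∧ φ a α = t ∧ (a ^ 5).IsPrincipal ∧
        (1 < t.2.2.2 → 4 * t.2.2.2 < -Q.D → ¬ a.IsPrincipal))

end Pool.Agent.T5
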