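import Pool.Agent.helper3.T5.SpecA

set_option autoImplicit false

/-! # Row t5:AALG (MP_16912e_nt): assembly of the algebra block -/

namespace Pool.Agent.T5

open Finset NumberField Pool.Agent.helper3.FT Pool.Agent.helper47.RA

variable {K : Type} [Field K] [NumberField K]

/-- the data with `Y γ > 0` behind admissible elements -/
theorem AALG_ex (hAFUL : AFUL_stmt) (hAGEX : AGEX_stmt) (hATPL : ATPL_stmt) {Q : QF K} (hD : Q.D < 0)
    {a : Ideal (𝓞 K)} {α γ : 𝓞 K} (h : Adm Q a α γ) :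
    ∃ γ₁ d t, (γ₁ = γ ∨ γ₁ = -γ) ∧ Dat Q a α γ₁ d t := by
  have hα : α ≠ 0 := by
    rintro rfl
    have h0 := h.n0
    have h1 : Q.Y (0 : 𝓞 K) = 0 := by
      have := Q.Y_int 0
      simpa using this
    rw [h1] at h0
    exact lt_irrefl _ h0
  have key : ∀ γ₁ : 𝓞 K, IsGam a α γ₁ → 0 < Q.Y γ₁ → ∃ d t, Dat Q a α γ₁ d t := by
    intro γ₁ h1 h2
    obtain ⟨F, rfl, rfl, rfl, -⟩ := hAFUL K Q hD a α γ₁ h.ne h.pa h.mem hα h.pL h1
    exact hATPL K Q hD F h.n0 h2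
  rcases lt_or_gt_of_ne h.k0 with hk | hk
  · have h1 : IsGam a α (-γ) := (hAGEX K Q a α h.ne).2.1 γ h.ga
    have h2 : 0 < Q.Y (-γ) := by
      have h3 : Q.Y (-γ) = - Q.Y γ := by
        have h4 := Q.Y_int_mul (-1) γ
        simpa using h4
      rw [h3]
      linarith
    obtain ⟨d, t, h3⟩ := key _ h1 h2
    exact ⟨-γ, d, t, Or.inr rfl, h3⟩
  · obtain ⟨d, t, h3⟩ := key γ h.ga hk
    exact ⟨γ, d, t, Or.inl rfl, h3⟩

/-- uniqueness -/
theorem AALG_uq (hAGEX : AGEX_stmt) (hADIN : ADIN_stmt) (hADFA : ADFA_stmt) {Q : QF K}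
    (hD : Q.D < -4) {a : Ideal (𝓞 K)} {α γ γ' : 𝓞 K} {d d' : ℕ} {t t' : Tpl}
    (h : Dat Q a α γ d t) (h' : Dat Q a α γ' d' t') : γ' = γ ∧ d = d' ∧ t = t' := by
  have hD0 : Q.D < 0 := by linarith
  obtain ⟨hne, -, -, -, -, g1, -, -, -, -, y1⟩ := hADFA K Q hD0 a α γ d t h
  obtain ⟨-, -, -, -, -, g2, -, -, -, -, y2⟩ := hADFA K Q hD0 a α γ' d' t' h'
  have e : γ' = γ := by
    rcases (hAGEX K Q a α hne).2.2.2 hD γ γ' g1 g2 with h1 | h1
    · exact h1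
    · exfalso
      have h3 : Q.Y (-γ) = - Q.Y γ := by
        have h4 := Q.Y_int_mul (-1) γ
        simpa using h4
      rw [h1, h3] at y2
      linarith
  subst e
  exact ⟨rfl, hADIN.2.2 K Q a α γ' d d' t t' h h'⟩

theorem AALG_gd {Q : QF K} {a : Ideal (𝓞 K)} {α γ γ₁ : 𝓞 K} {d : ℕ} {t : Tpl}
    (h : Dat Q a α γ₁ d t) (hs : γ₁ = γ ∨ γ₁ = -γ) : gd Q α γ = d ∧
      ((t.1.2 * d : ℕ) : ℤ) = |Q.Y γ| := by
  have e : |Q.Y γ| = (d : ℤ) * t.1.2 := by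
    have h0 : (0 : ℤ) ≤ (d : ℤ) * t.1.2 := by positivity
    rcases hs with h1 | h1
    · rw [← h1, h.k, abs_of_nonneg h0]
    · have h3 : Q.Y γ₁ = - Q.Y γ := by
        have h4 := Q.Y_int_mul (-1) γ
        rw [h1]
        simpa using h4
      have h5 := h.k
      rw [h3] at h5
      rw [← abs_neg, h5, abs_of_nonneg h0]
  constructor
  · unfold gd
    rw [Int.gcd_def, h.n]
    have e2 : (Q.Y γ).natAbs = d * t.1.2 := by
      have : ((Q.Y γ).natAbs : ℤ) = ((d * t.1.2 : ℕ) : ℤ) := by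
        rw [Int.natCast_natAbs, e]; push_cast; rfl
      exact_mod_cast this
    have e3 : ((d : ℤ) * (t.1.1 : ℤ)).natAbs = d * t.1.1 := by
      have : ((d : ℤ) * (t.1.1 : ℤ)) = ((d * t.1.1 : ℕ) : ℤ) := by push_cast; rfl
      rw [this, Int.natAbs_natCast]
    rw [e2, e3, Nat.gcd_mul_left, h.tt.co, mul_one]
  · rw [e]
    push_cast
    ring

theorem AALG (hAFUL : AFUL_stmt) (hAGEX : AGEX_stmt) (hATPL : ATPL_stmt) (hADIN : ADIN_stmt)
    (hASUR : ASUR_stmt) (hADFA : ADFA_stmt) (hAFPW : AFPW_stmt) (hACLP : ACLP_stmt)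
    (hAPPR : APPR_stmt) : AALG_stmt := by
  classical
  intro K _ _ Q _ hD
  have hD0 : Q.D < 0 := by linarith
  set φ : Ideal (𝓞 K) → 𝓞 K → Tpl := fun a α =>
    if h : ∃ t : Tpl, ∃ γ d, Dat Q a α γ d t then h.choose else ((0, 0), (0, 0, 0)) with hφ
  have hval : ∀ (a : Ideal (𝓞 K)) (α γ : 𝓞 K) (d : ℕ) (t : Tpl), Dat Q a α γ d t → φ a α = t := by
    intro a α γ d t h
    have hex : ∃ t : Tpl, ∃ γ d, Dat Q a α γ d t := ⟨t, γ, d, h⟩
    have e : φ a α = hex.choose := by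
      rw [hφ]
      exact dif_pos hex
    obtain ⟨γ', d', h'⟩ := hex.choose_spec
    rw [e]
    exact (AALG_uq hAGEX hADIN hADFA hD h' h).2.2
  refine ⟨φ, ?_, ?_, ?_⟩
  · intro a α γ hA
    obtain ⟨γ₁, d, t, hs, h⟩ := AALG_ex hAFUL hAGEX hATPL hD0 hA
    obtain ⟨e1, e2⟩ := AALG_gd h hs
    rw [e1, hval a α γ₁ d t h]
    obtain ⟨-, d₁, hd1, hco, hm, hg, hq⟩ := hACLP K Q a α γ₁ d t h
    obtain ⟨d₂, rfl⟩ := hd1
    have hd : 1 ≤ d₁ * d₂ := h.d1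
    have hd1' : 0 < d₁ := Nat.pos_of_ne_zero (by rintro rfl; simp at hd)
    rw [Nat.mul_div_cancel_left _ hd1'] at hco hq
    refine { tt := h.tt, n := ?_, k := e2, Z := h.z, L := h.l, D := h.D
             dd := ⟨d₁, d₂, rfl, hco, hm, hg, ?_⟩
             f := (hAFPW K Q a α γ₁ (d₁ * d₂) t h).1 }
    · rw [h.n]
      push_cast
      ring
    · rw [Int.isCoprime_iff_gcd_eq_one, Int.gcd_def, Int.natAbs_natCast]
      by_contra hc
      obtain ⟨q, hqp, hq1, hq2⟩ := (Nat.Prime.not_coprime_iff_dvd).1 hc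
      have h3 : (q : ℤ) ∣ t.2.2.2 * lam t := Int.natCast_dvd.2 hq2
      rcases (Nat.prime_iff_prime_int.1 hqp).dvd_or_dvd h3 with h4 | h4
      · exact (hq q hqp hq1).1 h4
      · exact (hq q hqp hq1).2 h4
  · intro a α γ a' α' γ' hA hA' _ he
    obtain ⟨γ₁, d, t, hs, h⟩ := AALG_ex hAFUL hAGEX hATPL hD0 hA
    obtain ⟨γ₂, d', t', hs', h'⟩ := AALG_ex hAFUL hAGEX hATPL hD0 hA'
    rw [hval _ _ _ _ _ h, hval _ _ _ _ _ h'] at he
    subst he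
    obtain ⟨-, h1, h2, -⟩ := hADIN.2.1 K Q a a' α γ₁ α' γ₂ d d' t h h'
    exact ⟨h1, h2⟩
  · intro t f hf hT hZ hL hdis hco
    have hp : ∀ p : ℕ, p.Prime → p ∣ f → ¬ (p : ℤ) ∣ t.2.2.2 ∧ ¬ (p : ℤ) ∣ lam t := by
      intro p hp hpf
      have hpf' : (p : ℤ) ∣ (f : ℤ) := by exact_mod_cast hpf
      constructor
      · intro h1
        have := hco.isUnit_of_dvd' hpf' (Dvd.dvd.mul_right h1 _)
        exact (Nat.prime_iff_prime_int.1 hp).not_isUnit this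
      · intro h1
        have := hco.isUnit_of_dvd' hpf' (Dvd.dvd.mul_left h1 _)
        exact (Nat.prime_iff_prime_int.1 hp).not_isUnit this
    obtain ⟨a, α, γ, h⟩ := hASUR K Q f t hT hf hdis hZ hL hp
    obtain ⟨hne, hpa, hpr, hmem, hC, hG, -, -, -, y1, y2⟩ := hADFA K Q hD0 a α γ f t h
    refine ⟨a, α, γ, ⟨hne, hpa, hmem, y1, hG, y2.ne', hC⟩, (AALG_gd h (Or.inl rfl)).1,
      hval a α γ f t h, hpr, ?_⟩
    intro hZ1 h4 hprin
    have hz := h.z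
    rw [hz] at h4 hZ1
    have h5 := hAPPR K Q a hne hpa hprin h4
    rw [h5] at hZ1
    norm_num at hZ1

end Pool.Agent.T5
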