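import Pool.Agent.helper82.T5.SpecS
import Pool.Agent.helper57.LT.DE

set_option autoImplicit false

/-!
# T5, row SLC: tuples with a conductor
-/

namespace Pool.Agent.T5

open Finset NumberField Pool.Agent.helper3.FT Pool.Agent.helper47.RA

theorem SLC_cases (hAIST : AIST_stmt) (hSFP : SFP_stmt) (hSTW : STW_stmt) {w : ℕ} (hw : 2 ≤ w)
    (P p₀ : ℝ) (t : Tpl)
    (hT : IsT t) (hd : dis t < 0) (hfw : fw w t ≠ 0) (hnf : ¬ IsFund (dis t)) :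
    (∃ p : ℕ, p.Prime ∧ w < p ∧ (p : ℝ) ≤ P ∧ (p : ℤ) ^ 2 ∣ dis t) ∨
    (∃ p : ℕ, p.Prime ∧ P < p ∧ (p : ℝ) ≤ p₀ ∧ (p : ℤ) ∣ t.2.1 * t.2.2.1 ∧
      (p ∣ t.1.1 * t.1.2 ∨ (p : ℤ) ∣ t.2.2.2)) ∨
    (∃ (f : ℕ) (D₀ : ℤ), IsFund D₀ ∧ dis t = D₀ * (f : ℤ) ^ 2 ∧
        IsCoprime (f : ℤ) (t.2.2.2 * lam t) ∧ P < f ∧ (f : ℝ) ≤ p₀) ∨
    (∃ (f : ℕ) (D₀ : ℤ), IsFund D₀ ∧ dis t = D₀ * (f : ℤ) ^ 2 ∧
        (∀ p : ℕ, p.Prime → p ∣ f → P < p ∧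
          ((p : ℝ) ≤ p₀ → ¬ (p : ℤ) ∣ t.2.2.2 * lam t)) ∧ p₀ < f) := by
  obtain ⟨f, D₀, hf, hD₀, e⟩ :=
    Pool.Agent.helper28.LT.exists_fund (dis t) hd (hAIST t hT).2.2.2.2.2
  have e' : dis t = D₀ * (f : ℤ) ^ 2 := by rw [e]; ring
  have hf1 : f ≠ 1 := by
    rintro rfl
    apply hnf
    rw [e']
    simpa using hD₀
  have hpw := hSFP.2 w t f D₀ hT hfw hD₀ e' hf
  have hsq : ∀ p : ℕ, p ∣ f → (p : ℤ) ^ 2 ∣ dis t := by
    intro p hp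
    rw [e']
    exact Dvd.dvd.mul_left (pow_dvd_pow_of_dvd (by exact_mod_cast hp) 2) _
  by_cases h1 : ∃ p : ℕ, p.Prime ∧ p ∣ f ∧ (p : ℝ) ≤ P
  · obtain ⟨p, hp, hpf, hpP⟩ := h1
    exact Or.inl ⟨p, hp, hpw p hp hpf, hpP, hsq p hpf⟩
  have h1' : ∀ p : ℕ, p.Prime → p ∣ f → P < (p : ℝ) := by
    intro p hp hpf
    by_contra hc
    exact h1 ⟨p, hp, hpf, not_lt.1 hc⟩
  by_cases h2 : ∃ p : ℕ, p.Prime ∧ p ∣ f ∧ (p : ℝ) ≤ p₀ ∧ (p : ℤ) ∣ t.2.2.2 * lam t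
  · obtain ⟨p, hp, hpf, hp0, hpZ⟩ := h2
    have hp2 : p ≠ 2 := by
      have := hpw p hp hpf
      omega
    have h3 := hSTW t p hT hp hp2 (hsq p hpf) ((Nat.prime_iff_prime_int.1 hp).dvd_or_dvd hpZ)
    exact Or.inr (Or.inl ⟨p, hp, h1' p hp hpf, hp0, h3⟩)
  by_cases h3 : (f : ℝ) ≤ p₀
  · right; right; left
    refine ⟨f, D₀, hD₀, e', ?_, ?_, h3⟩
    · rw [Int.isCoprime_iff_gcd_eq_one, Int.gcd_def, Int.natAbs_natCast]
      by_contra hc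
      obtain ⟨q, hq, hq1, hq2⟩ := Nat.Prime.not_coprime_iff_dvd.1 hc
      have hqf : (q : ℝ) ≤ f := by exact_mod_cast Nat.le_of_dvd (by omega) hq1
      exact h2 ⟨q, hq, hq1, hqf.trans h3, Int.natCast_dvd.2 hq2⟩
    · obtain ⟨q, hq, hqf⟩ := Nat.exists_prime_and_dvd hf1
      have hqf' : (q : ℝ) ≤ f := by exact_mod_cast Nat.le_of_dvd (by omega) hqf
      exact (h1' q hq hqf).trans_le hqf'
  · right; right; right
    exact ⟨f, D₀, hD₀, e', fun p hp hpf => ⟨h1' p hp hpf, fun h h' => h2 ⟨p, hp, hpf, h, h'⟩⟩,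
      not_le.1 h3⟩

theorem SLC (hAIST : AIST_stmt) (hSFP : SFP_stmt) (hSTW : STW_stmt) : ∀ δ : ℝ, SLC_stmt δ := by
  classical
  intro δ hδ hδ1 hT1 hTW hT3 hT4 κ hκ
  obtain ⟨C, hC, h1⟩ := hT1 κ hκ
  obtain ⟨c2, N2, hc2, h2⟩ := hTW κ hκ
  obtain ⟨c3, N3, hc3, h3⟩ := hT3 κ hκ
  obtain ⟨c4, N4, hc4, h4⟩ := hT4 κ hκ
  refine ⟨C, hC, ?_⟩
  intro w hw ε hε
  obtain ⟨N1, h1⟩ := h1 w hw (ε / 4) (by positivity)
  have hlim : ∀ c : ℝ, 0 < c → ∃ M : ℝ, ∀ N : ℝ, M ≤ N → N ^ (-c) ≤ ε / 4 := by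
    intro c hc
    have h5 : (0 : ℝ) < ε / 4 := by positivity
    have h6 : ∀ᶠ N : ℝ in Filter.atTop, N ^ (-c) < ε / 4 :=
      (tendsto_rpow_neg_atTop hc).eventually (gt_mem_nhds h5)
    obtain ⟨M, hM⟩ := Filter.eventually_atTop.1 h6
    exact ⟨M, fun N hN => (hM N hN).le⟩
  obtain ⟨M2, hM2⟩ := hlim c2 hc2
  obtain ⟨M3, hM3⟩ := hlim c3 hc3
  obtain ⟨M4, hM4⟩ := hlim c4 hc4
  refine ⟨max (max (max N1 N2) (max N3 N4)) (max (max M2 M3) (max M4 1)), ?_⟩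
  intro N Y hN hY1 hY2 F hF
  have hN1 : N1 ≤ N := (le_max_left _ _).trans ((le_max_left _ _).trans ((le_max_left _ _).trans hN))
  have hN2 : N2 ≤ N := (le_max_right _ _).trans ((le_max_left _ _).trans ((le_max_left _ _).trans hN))
  have hN3 : N3 ≤ N := (le_max_left _ _).trans ((le_max_right _ _).trans ((le_max_left _ _).trans hN))
  have hN4 : N4 ≤ N := (le_max_right _ _).trans ((le_max_right _ _).trans ((le_max_left _ _).trans hN))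
  have hM2' : M2 ≤ N := (le_max_left _ _).trans ((le_max_left _ _).trans ((le_max_right _ _).trans hN))
  have hM3' : M3 ≤ N := (le_max_right _ _).trans ((le_max_left _ _).trans ((le_max_right _ _).trans hN))
  have hM4' : M4 ≤ N := (le_max_left _ _).trans ((le_max_right _ _).trans ((le_max_right _ _).trans hN))
  have hN0 : (1 : ℝ) ≤ N := (le_max_right _ _).trans ((le_max_right _ _).trans ((le_max_right _ _).trans hN))
  have hNpos : 0 < N := by linarith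
  have hYpos : 0 < Y := lt_of_lt_of_le (Real.rpow_pos_of_pos hNpos _) hY1
  have hY2pos : 0 < N ^ (1 / 2 + δ / 100) := Real.rpow_pos_of_pos hNpos _
  set F1 := F.filter (fun t => ∃ p : ℕ, p.Prime ∧ w < p ∧ (p : ℝ) ≤ N ^ (δ / 10000) ∧
    (p : ℤ) ^ 2 ∣ dis t) with hF1
  set F2 := F.filter (fun t => ∃ p : ℕ, p.Prime ∧ N ^ (δ / 10000) < p ∧
    (p : ℝ) ≤ N ^ (1 / 2 + δ / 100) / Y ∧ (p : ℤ) ∣ t.2.1 * t.2.2.1 ∧
      (p ∣ t.1.1 * t.1.2 ∨ (p : ℤ) ∣ t.2.2.2)) with hF2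
  set F4 := F.filter (fun t => ∃ (f : ℕ) (D₀ : ℤ), IsFund D₀ ∧ dis t = D₀ * (f : ℤ) ^ 2 ∧
        IsCoprime (f : ℤ) (t.2.2.2 * lam t) ∧ N ^ (δ / 10000) < f ∧
        (f : ℝ) ≤ N ^ (1 / 2 + δ / 100) / Y) with hF4
  set F3 := F.filter (fun t => ∃ (f : ℕ) (D₀ : ℤ), IsFund D₀ ∧ dis t = D₀ * (f : ℤ) ^ 2 ∧
        (∀ p : ℕ, p.Prime → p ∣ f → N ^ (δ / 10000) < p ∧
          ((p : ℝ) ≤ N ^ (1 / 2 + δ / 100) / Y → ¬ (p : ℤ) ∣ t.2.2.2 * lam t)) ∧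
        N ^ (1 / 2 + δ / 100) / Y < f) with hF3
  have hsub : F ⊆ F1 ∪ (F2 ∪ (F4 ∪ F3)) := by
    intro t ht
    obtain ⟨hcen, hfw, hnf⟩ := hF t ht
    have hd : dis t < 0 := by
      have h5 := hcen.d1
      have h6 : (dis t : ℝ) < 0 := by linarith
      exact_mod_cast h6
    rcases SLC_cases hAIST hSFP hSTW hw (N ^ (δ / 10000)) (N ^ (1 / 2 + δ / 100) / Y) t hcen.tt hd
      hfw hnf with h5 | h5 | h5 | h5
    · exact mem_union_left _ (by rw [hF1, mem_filter]; exact ⟨ht, h5⟩)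
    · exact mem_union_right _ (mem_union_left _ (by rw [hF2, mem_filter]; exact ⟨ht, h5⟩))
    · exact mem_union_right _ (mem_union_right _ (mem_union_left _
        (by rw [hF4, mem_filter]; exact ⟨ht, h5⟩)))
    · exact mem_union_right _ (mem_union_right _ (mem_union_right _
        (by rw [hF3, mem_filter]; exact ⟨ht, h5⟩)))
  have hcard : (F.card : ℝ) ≤ F1.card + (F2.card + (F4.card + F3.card)) := by
    have h5 := (card_le_card hsub).trans (card_union_le _ _)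
    have h6 := card_union_le F2 (F4 ∪ F3)
    have h7 := card_union_le F4 F3
    have h8 : F.card ≤ F1.card + (F2.card + (F4.card + F3.card)) := by omega
    exact_mod_cast h8
  have g1 := h1 N Y hN1 hY1 hY2 F1 (by
    intro t ht
    rw [hF1, mem_filter] at ht
    exact ⟨(hF t ht.1).1, ht.2⟩)
  have g2 := h2 N Y hN2 hY1 hY2 F2 (by
    intro t ht
    rw [hF2, mem_filter] at ht
    exact ⟨(hF t ht.1).1, ht.2⟩)
  have g3 := h3 N Y hN3 hY1 hY2 F3 (by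
    intro t ht
    rw [hF3, mem_filter] at ht
    exact ⟨(hF t ht.1).1, ht.2⟩)
  have g4 := h4 N Y hN4 hY1 hY2 F4 (by
    intro t ht
    rw [hF4, mem_filter] at ht
    exact ⟨(hF t ht.1).1, ht.2⟩)
  have hYY : 0 ≤ Y * N ^ (1 / 2 + δ / 100) := by positivity
  have e2 := mul_le_mul_of_nonneg_right (hM2 N hM2') hYY
  have e3 := mul_le_mul_of_nonneg_right (hM3 N hM3') hYY
  have e4 := mul_le_mul_of_nonneg_right (hM4 N hM4') hYY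
  calc (F.card : ℝ) ≤ F1.card + (F2.card + (F4.card + F3.card)) := hcard
    _ ≤ (C / w + ε / 4) * (Y * N ^ (1 / 2 + δ / 100)) + (ε / 4 * (Y * N ^ (1 / 2 + δ / 100)) +
        (ε / 4 * (Y * N ^ (1 / 2 + δ / 100)) + ε / 4 * (Y * N ^ (1 / 2 + δ / 100)))) := by
        linarith
    _ = (C / w + ε) * (Y * N ^ (1 / 2 + δ / 100)) := by ring

end Pool.Agent.T5
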